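import Mathlib

/-!
Project OD (helper99), module `CNT`: weights of sets of degrees. `t_CNT : S_CNT`. Follows the docstring of
`Pool.Agent.D0H99.OD.Stm`; the weight of the sets `B` with `2 ^ |B| > 8 Z` is at most `Z / 8`, too.
-/

set_option autoImplicit false

namespace Pool.Agent.D0H49.OD

open Finset

/-- the error of a set of degrees (the same as `Pool.Agent.D0H99.OD.wt`) -/
noncomputable def wt' (Q C : ℝ) (A : Finset ℕ) : ℝ :=
  ∑ n ∈ A, (2 : ℝ) ^ (A.filter fun m => m ≤ n).card * (C * (n : ℝ) ^ 3 / Q ^ n)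

/-- the weight -/
noncomputable def W (B : Finset ℕ) : ℝ := ∏ n ∈ B, (1 / (n : ℝ))

lemma W_nonneg (B : Finset ℕ) : 0 ≤ W B := Finset.prod_nonneg fun n _ => by positivity

/-- sum over the subsets containing `n` -/
lemma sum_mem (S : Finset ℕ) (a : ℕ → ℝ) (n : ℕ) (hn : n ∈ S) :
    ∑ B ∈ S.powerset, (if n ∈ B then ∏ m ∈ B, a m else 0) = a n * ∏ m ∈ S.erase n, (1 + a m) := by
  have h1 : insert n (S.erase n) = S := Finset.insert_erase hn
  have h2 : n ∉ S.erase n := Finset.notMem_erase n S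
  conv_lhs => rw [← h1]
  rw [Finset.sum_powerset_insert h2]
  have h3 : ∑ t ∈ (S.erase n).powerset, (if n ∈ t then ∏ m ∈ t, a m else 0) = 0 := by
    refine Finset.sum_eq_zero fun t ht => ?_
    rw [if_neg]
    exact fun h => h2 (Finset.mem_powerset.mp ht h)
  have h4 : ∑ t ∈ (S.erase n).powerset, (if n ∈ insert n t then ∏ m ∈ insert n t, a m else 0)
      = ∑ t ∈ (S.erase n).powerset, a n * ∏ m ∈ t, a m := by
    refine Finset.sum_congr rfl fun t ht => ?_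
    rw [if_pos (Finset.mem_insert_self n t),
      Finset.prod_insert fun h => h2 (Finset.mem_powerset.mp ht h)]
  rw [h3, h4, zero_add, ← Finset.mul_sum, Finset.prod_one_add]

lemma sum_mem_le (S : Finset ℕ) (a : ℕ → ℝ) (ha : ∀ m, 0 ≤ a m) (n : ℕ) (hn : n ∈ S) :
    ∑ B ∈ S.powerset, (if n ∈ B then ∏ m ∈ B, a m else 0) ≤ a n * ∏ m ∈ S, (1 + a m) := by
  rw [sum_mem S a n hn]
  refine mul_le_mul_of_nonneg_left ?_ (ha n)
  rw [← Finset.mul_prod_erase S (fun m => 1 + a m) hn]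
  have h1 : 0 ≤ ∏ m ∈ S.erase n, (1 + a m) :=
    Finset.prod_nonneg fun m _ => by linarith [ha m]
  nlinarith [ha n]

/-- double counting -/
lemma swap (S : Finset ℕ) (w : Finset ℕ → ℝ) (φ : ℕ → Finset ℕ → ℝ) :
    ∑ B ∈ S.powerset, w B * ∑ n ∈ B, φ n B =
      ∑ n ∈ S, ∑ B ∈ S.powerset, (if n ∈ B then w B * φ n B else 0) := by
  rw [Finset.sum_comm]
  refine Finset.sum_congr rfl fun B hB => ?_
  rw [Finset.mul_sum, ← Finset.sum_filter]
  refine Finset.sum_congr ?_ fun _ _ => rfl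
  ext n
  rw [Finset.mem_filter]
  exact ⟨fun h => ⟨Finset.mem_powerset.mp hB h, h⟩, fun h => h.2⟩

/-- Markov -/
lemma markov (P : Finset (Finset ℕ)) (g : Finset ℕ → ℝ) (hg : ∀ B, 0 ≤ g B) (l M : ℝ) (hl : 0 < l)
    (hM : ∑ B ∈ P, W B * g B ≤ l * M) (cond : Finset ℕ → Prop) [DecidablePred cond]
    (hc : ∀ B ∈ P, ¬ cond B → l ≤ g B) :
    ∑ B ∈ P, (if cond B then 0 else W B) ≤ M := by
  have h1 : l * ∑ B ∈ P, (if cond B then 0 else W B) ≤ ∑ B ∈ P, W B * g B := by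
    rw [Finset.mul_sum]
    refine Finset.sum_le_sum fun B hB => ?_
    split_ifs with h
    · rw [mul_zero]
      exact mul_nonneg (W_nonneg B) (hg B)
    · rw [mul_comm]
      exact mul_le_mul_of_nonneg_left (hc B hB h) (W_nonneg B)
  exact le_of_mul_le_mul_left (h1.trans hM) hl

/-- telescoping -/
lemma tele (n0 : ℕ) (h0 : 1 ≤ n0) (y : ℕ) (hy : n0 ≤ y) :
    ∏ m ∈ Icc n0 y, (1 + 1 / (m : ℝ)) = ((y : ℝ) + 1) / n0 := by
  have h0' : (0 : ℝ) < n0 := by exact_mod_cast h0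
  induction y, hy using Nat.le_induction with
  | base => rw [Icc_self, prod_singleton]; field_simp
  | succ y hy ih =>
    rw [← Finset.insert_Icc_right_eq_Icc_add_one (by omega), Finset.prod_insert (by simp), ih]
    have : (0 : ℝ) < (y : ℝ) + 1 := by positivity
    push_cast
    field_simp
    

lemma tele2 (n0 : ℕ) (h0 : 1 ≤ n0) (y : ℕ) (hy : n0 ≤ y) :
    (∏ m ∈ Icc n0 y, (1 + 1 / (m : ℝ) * (1 / 2))) ^ 2 * ((y : ℝ) + 2) ≤
      ((n0 : ℝ) + 1) * (((y : ℝ) + 1) / n0) ^ 2 := by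
  have h0' : (0 : ℝ) < n0 := by exact_mod_cast h0
  have key : ∀ x : ℝ, 0 < x → (1 + 1 / x * (1 / 2)) ^ 2 * (x + 2) ≤ (x + 1) * (1 + 1 / x) ^ 2 := by
    intro x hx
    have e1 : (1 + 1 / x * (1 / 2)) ^ 2 * (x + 2) = (2 * x + 1) ^ 2 * (x + 2) / (4 * x ^ 2) := by
      field_simp
      ring
    have e2 : (x + 1) * (1 + 1 / x) ^ 2 = (2 * x + 2) ^ 2 * (x + 1) / (4 * x ^ 2) := by
      field_simp
      ring
    rw [e1, e2]
    refine div_le_div_of_nonneg_right ?_ (by positivity)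
    nlinarith
  induction y, hy using Nat.le_induction with
  | base =>
    rw [Icc_self, prod_singleton]
    have e : ((n0 : ℝ) + 1) / n0 = 1 + 1 / (n0 : ℝ) := by field_simp
    rw [e]
    exact key _ h0'
  | succ y hy ih =>
    rw [← Finset.insert_Icc_right_eq_Icc_add_one (by omega), Finset.prod_insert (by simp)]
    have hx : (0 : ℝ) < ((y + 1 : ℕ) : ℝ) := by positivity
    have k := key _ hx
    set P := ∏ m ∈ Icc n0 y, (1 + 1 / (m : ℝ) * (1 / 2)) with hP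
    set t := (1 + 1 / ((y + 1 : ℕ) : ℝ) * (1 / 2)) with ht
    have e3 : (((y + 1 : ℕ) : ℝ) + 1) / n0 = ((y : ℝ) + 1) / n0 * (1 + 1 / ((y + 1 : ℕ) : ℝ)) := by
      have : (0 : ℝ) < (y : ℝ) + 1 := by positivity
      push_cast
      field_simp
    rw [e3]
    calc (t * P) ^ 2 * (((y + 1 : ℕ) : ℝ) + 2) = P ^ 2 * (t ^ 2 * (((y + 1 : ℕ) : ℝ) + 2)) := by
          ring
      _ ≤ P ^ 2 * ((((y + 1 : ℕ) : ℝ) + 1) * (1 + 1 / ((y + 1 : ℕ) : ℝ)) ^ 2) :=
          mul_le_mul_of_nonneg_left k (by positivity)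
      _ = (P ^ 2 * ((y : ℝ) + 2)) * (1 + 1 / ((y + 1 : ℕ) : ℝ)) ^ 2 := by
          push_cast; ring
      _ ≤ (((n0 : ℝ) + 1) * (((y : ℝ) + 1) / n0) ^ 2) * (1 + 1 / ((y + 1 : ℕ) : ℝ)) ^ 2 :=
          mul_le_mul_of_nonneg_right ih (by positivity)
      _ = _ := by ring

/-- the sum of the weights -/
lemma sum_W (n0 : ℕ) (h0 : 1 ≤ n0) (y : ℕ) (hy : n0 ≤ y) :
    ∑ B ∈ (Icc n0 y).powerset, W B = ((y : ℝ) + 1) / n0 := by
  rw [← tele n0 h0 y hy, Finset.prod_one_add]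
  rfl

/-- (1) -/
lemma bad1 (n0 : ℕ) (h0 : 1 ≤ n0) (y : ℕ) (hy : n0 ≤ y) :
    ∑ B ∈ (Icc n0 y).powerset, W B * ∑ n ∈ B, (n : ℝ) ≤ y * (((y : ℝ) + 1) / n0) := by
  rw [swap]
  have h1 : ∀ n ∈ Icc n0 y, ∑ B ∈ (Icc n0 y).powerset, (if n ∈ B then W B * (n : ℝ) else 0) ≤
      ((y : ℝ) + 1) / n0 := by
    intro n hn
    have hn0 : (0 : ℝ) < n := by
      have := (Finset.mem_Icc.mp hn).1
      exact_mod_cast (by omega : 0 < n)
    have h2 := sum_mem_le (Icc n0 y) (fun m => 1 / (m : ℝ)) (fun m => by positivity) n hn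
    rw [tele n0 h0 y hy] at h2
    have h3 : ∑ B ∈ (Icc n0 y).powerset, (if n ∈ B then W B * (n : ℝ) else 0) =
        (∑ B ∈ (Icc n0 y).powerset, (if n ∈ B then W B else 0)) * n := by
      rw [Finset.sum_mul]
      refine Finset.sum_congr rfl fun B _ => ?_
      split_ifs <;> simp
    rw [h3]
    refine (mul_le_mul_of_nonneg_right h2 hn0.le).trans (le_of_eq ?_)
    field_simp
  refine (Finset.sum_le_sum h1).trans ?_
  rw [Finset.sum_const, nsmul_eq_mul, Nat.card_Icc]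
  refine mul_le_mul_of_nonneg_right ?_ (by positivity)
  exact_mod_cast (by omega : y + 1 - n0 ≤ y)

/-- (2) -/
lemma bad2 (f : ℕ → ℝ) (hf : ∀ n, 0 ≤ f n) (F : ℝ) (n0 : ℕ) (h0 : 1 ≤ n0) (y : ℕ) (hy : n0 ≤ y)
    (hF : ∑ n ∈ Icc n0 y, f n ≤ F) :
    ∑ B ∈ (Icc n0 y).powerset, W B * ∑ n ∈ B, (2 : ℝ) ^ (B.filter fun m => m ≤ n).card * f n ≤
      4 / n0 * F * (((y : ℝ) + 1) / n0) := by
  have h0' : (0 : ℝ) < n0 := by exact_mod_cast h0
  rw [swap]
  set Z := ((y : ℝ) + 1) / n0 with hZ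
  have hZ0 : 0 ≤ Z := by positivity
  have h1 : ∀ n ∈ Icc n0 y, ∑ B ∈ (Icc n0 y).powerset,
      (if n ∈ B then W B * ((2 : ℝ) ^ (B.filter fun m => m ≤ n).card * f n) else 0) ≤
      4 / n0 * Z * f n := by
    intro n hn
    obtain ⟨hn1, hn2⟩ := Finset.mem_Icc.mp hn
    have hn0 : (0 : ℝ) < n := by exact_mod_cast (by omega : 0 < n)
    set a : ℕ → ℝ := fun m => 1 / (m : ℝ) * (if m ≤ n then 2 else 1) with ha
    have ha0 : ∀ m, 0 ≤ a m := fun m => by
      show 0 ≤ 1 / (m : ℝ) * (if m ≤ n then 2 else 1)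
      split_ifs <;> positivity
    have h2 := sum_mem_le (Icc n0 y) a ha0 n hn
    have h3 : ∑ B ∈ (Icc n0 y).powerset,
        (if n ∈ B then W B * ((2 : ℝ) ^ (B.filter fun m => m ≤ n).card * f n) else 0) =
        (∑ B ∈ (Icc n0 y).powerset, (if n ∈ B then ∏ m ∈ B, a m else 0)) * f n := by
      rw [Finset.sum_mul]
      refine Finset.sum_congr rfl fun B _ => ?_
      split_ifs
      · have e : ∏ m ∈ B, a m = W B * (2 : ℝ) ^ (B.filter fun m => m ≤ n).card := by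
          rw [ha, Finset.prod_mul_distrib, Finset.prod_ite, Finset.prod_const, Finset.prod_const,
            one_pow, mul_one]
          rfl
        rw [e, mul_assoc]
      · rw [zero_mul]
    rw [h3]
    refine mul_le_mul_of_nonneg_right (h2.trans ?_) (hf n)
    have h4 : ∏ m ∈ Icc n0 y, (1 + a m) ≤
        ∏ m ∈ Icc n0 y, ((1 + 1 / (m : ℝ)) * (if m ≤ n then 1 + 1 / (m : ℝ) else 1)) := by
      refine Finset.prod_le_prod (fun m _ => by linarith [ha0 m]) fun m hm => ?_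
      have hm0 : (0 : ℝ) ≤ 1 / (m : ℝ) := by positivity
      show 1 + 1 / (m : ℝ) * (if m ≤ n then 2 else 1) ≤ _
      split_ifs
      · nlinarith
      · linarith
    have h5 : ∏ m ∈ Icc n0 y, ((1 + 1 / (m : ℝ)) * (if m ≤ n then 1 + 1 / (m : ℝ) else 1)) =
        Z * (((n : ℝ) + 1) / n0) := by
      rw [Finset.prod_mul_distrib, tele n0 h0 y hy, Finset.prod_ite, Finset.prod_const_one, mul_one]
      congr 1
      rw [← tele n0 h0 n hn1]
      refine Finset.prod_congr ?_ fun _ _ => rfl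
      ext m
      simp only [Finset.mem_filter, Finset.mem_Icc]
      omega
    rw [h5] at h4
    have h6 : a n = 2 / n := by
      show 1 / (n : ℝ) * (if n ≤ n then 2 else 1) = _
      rw [if_pos le_rfl]; ring
    rw [h6]
    refine (mul_le_mul_of_nonneg_left h4 (by positivity)).trans ?_
    have h7 : 2 / (n : ℝ) * (Z * (((n : ℝ) + 1) / n0)) = (2 * ((n : ℝ) + 1) / n) / n0 * Z := by
      field_simp
    rw [h7]
    refine mul_le_mul_of_nonneg_right ?_ hZ0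
    refine div_le_div_of_nonneg_right ?_ h0'.le
    rw [div_le_iff₀ hn0]
    have : (1 : ℝ) ≤ n := by exact_mod_cast (by omega : 1 ≤ n)
    linarith
  refine (Finset.sum_le_sum h1).trans ?_
  rw [← Finset.mul_sum]
  have := mul_le_mul_of_nonneg_left hF (by positivity : (0 : ℝ) ≤ 4 / n0 * Z)
  linarith

/-- products over the elements -/
lemma sum_W_pow (S : Finset ℕ) (x : ℝ) :
    ∑ B ∈ S.powerset, W B * x ^ B.card = ∏ m ∈ S, (1 + 1 / (m : ℝ) * x) := by
  rw [Finset.prod_one_add]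
  refine Finset.sum_congr rfl fun B _ => ?_
  rw [Finset.prod_mul_distrib, Finset.prod_const]
  rfl

/-- the good sets -/
def Gd (Q C ε Z : ℝ) (r0 D : ℕ) (B : Finset ℕ) : Prop :=
  2 * ∑ n ∈ B, n ≤ D ∧ wt' Q C B ≤ ε / 2 ∧ r0 ≤ B.card ∧ (2 : ℝ) ^ B.card ≤ 8 * Z

open Classical in
/-- the good sets have most of the weight -/
lemma good_weight (Q C ε : ℝ) (hQ : 1 < Q) (hC : 0 < C) (hε : 0 < ε) (F : ℝ) (n0 : ℕ) (h0 : 1 ≤ n0)
    (y : ℕ) (hy : n0 ≤ y) (hF : ∑ n ∈ Icc n0 y, C * (n : ℝ) ^ 3 / Q ^ n ≤ F)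
    (hF2 : 4 / n0 * F ≤ ε / 16) (r0 D : ℕ) (hD : 8 * y ≤ D)
    (hr : 64 * (4 : ℝ) ^ r0 * (n0 + 1) ≤ y + 2) :
    3 / 8 * (((y : ℝ) + 1) / n0) ≤
      ∑ B ∈ (Icc n0 y).powerset.filter (Gd Q C ε (((y : ℝ) + 1) / n0) r0 D), W B := by
  have h0' : (0 : ℝ) < n0 := by exact_mod_cast h0
  have hQ0 : 0 < Q := by linarith
  set Z := ((y : ℝ) + 1) / n0 with hZ
  have hZ0 : 0 < Z := by positivity
  have hDy : 8 * (y : ℝ) ≤ D := by exact_mod_cast hD
  have hy0 : (1 : ℝ) ≤ y := by exact_mod_cast (by omega : 1 ≤ y)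
  set P := (Icc n0 y).powerset with hP
  -- the four conditions
  have m1 : ∑ B ∈ P, (if 2 * ∑ n ∈ B, n ≤ D then 0 else W B) ≤ Z / 4 := by
    refine markov P (fun B => ∑ n ∈ B, (n : ℝ)) (fun B => by positivity) ((D : ℝ) / 2) (Z / 4)
      (by linarith) ((bad1 n0 h0 y hy).trans ?_) _ fun B _ hB => ?_
    · rw [← hZ]
      nlinarith
    · show (D : ℝ) / 2 ≤ ∑ n ∈ B, (n : ℝ)
      have : (D : ℝ) ≤ ((2 * ∑ n ∈ B, n : ℕ) : ℝ) := by exact_mod_cast (not_le.mp hB).le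
      push_cast at this
      linarith
  have m2 : ∑ B ∈ P, (if wt' Q C B ≤ ε / 2 then 0 else W B) ≤ Z / 8 := by
    refine markov P (fun B => wt' Q C B) (fun B => ?_) (ε / 2) (Z / 8)
      (by linarith) ((bad2 (fun n => C * (n : ℝ) ^ 3 / Q ^ n) (fun n => by positivity) F n0 h0 y hy
        hF).trans ?_) _ fun B _ hB => (not_le.mp hB).le
    · exact Finset.sum_nonneg fun n _ => by positivity
    · rw [← hZ]
      nlinarith
  have m4 : ∑ B ∈ P, (if (2 : ℝ) ^ B.card ≤ 8 * Z then 0 else W B) ≤ Z / 8 := by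
    refine markov P (fun B => (2 : ℝ) ^ B.card) (fun B => by positivity) (8 * Z) (Z / 8)
      (by linarith) ?_ _ fun B _ hB => (not_le.mp hB).le
    rw [hP, sum_W_pow]
    have : ∏ m ∈ Icc n0 y, (1 + 1 / (m : ℝ) * 2) ≤ ∏ m ∈ Icc n0 y, (1 + 1 / (m : ℝ)) ^ 2 := by
      refine Finset.prod_le_prod (fun m _ => by positivity) fun m _ => ?_
      have : (0 : ℝ) ≤ 1 / (m : ℝ) := by positivity
      nlinarith
    rw [Finset.prod_pow, tele n0 h0 y hy, ← hZ] at this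
    refine this.trans (le_of_eq ?_)
    ring
  have m3 : ∑ B ∈ P, (if r0 ≤ B.card then 0 else W B) ≤ Z / 8 := by
    refine markov P (fun B => (1 / 2 : ℝ) ^ B.card) (fun B => by positivity) ((1 / 2 : ℝ) ^ r0)
      (Z / 8) (by positivity) ?_ _ fun B _ hB =>
        pow_le_pow_of_le_one (by norm_num) (by norm_num) (not_le.mp hB).le
    rw [hP, sum_W_pow]
    have t2 := tele2 n0 h0 y hy
    rw [← hZ] at t2
    set S := ∏ m ∈ Icc n0 y, (1 + 1 / (m : ℝ) * (1 / 2)) with hS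
    have hS0 : 0 ≤ S := Finset.prod_nonneg fun m _ => by positivity
    have h5 : (S * (8 * 2 ^ r0)) ^ 2 ≤ Z ^ 2 := by
      have e4 : (4 : ℝ) ^ r0 = (2 ^ r0) ^ 2 := by rw [← pow_mul, mul_comm, pow_mul]; norm_num
      have h6 : S ^ 2 * (64 * (4 : ℝ) ^ r0 * (n0 + 1)) ≤ ((n0 : ℝ) + 1) * Z ^ 2 :=
        (mul_le_mul_of_nonneg_left hr (by positivity)).trans t2
      have h7 : ((n0 : ℝ) + 1) * (S * (8 * 2 ^ r0)) ^ 2 ≤ ((n0 : ℝ) + 1) * Z ^ 2 := by
        refine le_trans (le_of_eq ?_) h6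
        rw [e4]; ring
      exact le_of_mul_le_mul_left h7 (by positivity)
    have h8 : S * (8 * 2 ^ r0) ≤ Z := (sq_le_sq₀ (by positivity) hZ0.le).mp h5
    have h9 : (1 / 2 : ℝ) ^ r0 * 2 ^ r0 = 1 := by rw [← mul_pow]; norm_num
    have h10 : S = (1 / 2 : ℝ) ^ r0 * (S * (8 * 2 ^ r0) / 8) := by
      calc S = ((1 / 2 : ℝ) ^ r0 * 2 ^ r0) * S := by rw [h9, one_mul]
        _ = _ := by ring
    rw [h10]
    refine mul_le_mul_of_nonneg_left ?_ (by positivity)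
    linarith
  have hall : ∑ B ∈ P, W B ≤ ∑ B ∈ P, ((if Gd Q C ε Z r0 D B then W B else 0) +
      (if 2 * ∑ n ∈ B, n ≤ D then 0 else W B) + (if wt' Q C B ≤ ε / 2 then 0 else W B) +
      (if (2 : ℝ) ^ B.card ≤ 8 * Z then 0 else W B) + (if r0 ≤ B.card then 0 else W B)) := by
    refine Finset.sum_le_sum fun B _ => ?_
    have hW := W_nonneg B
    by_cases c1 : 2 * ∑ n ∈ B, n ≤ D
    · by_cases c2 : wt' Q C B ≤ ε / 2
      · by_cases c3 : r0 ≤ B.card
        · by_cases c4 : (2 : ℝ) ^ B.card ≤ 8 * Z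
          · have hGd : Gd Q C ε Z r0 D B := ⟨c1, c2, c3, c4⟩
            rw [if_pos hGd, if_pos c1, if_pos c2, if_pos c3, if_pos c4]
            linarith
          · rw [if_neg c4]
            split_ifs <;> linarith
        · rw [if_neg c3]
          split_ifs <;> linarith
      · rw [if_neg c2]
        split_ifs <;> linarith
    · rw [if_neg c1]
      split_ifs <;> linarith
  rw [Finset.sum_add_distrib, Finset.sum_add_distrib, Finset.sum_add_distrib,
    Finset.sum_add_distrib, hP, sum_W n0 h0 y hy, ← hZ, ← hP] at hall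
  rw [Finset.sum_filter]
  linarith

lemma wt'_insert (Q C : ℝ) (B : Finset ℕ) (n : ℕ) (hn : ∀ m ∈ B, m < n) :
    wt' Q C (insert n B) = (2 : ℝ) ^ (B.card + 1) * (C * (n : ℝ) ^ 3 / Q ^ n) + wt' Q C B := by
  have hnB : n ∉ B := fun h => lt_irrefl _ (hn n h)
  unfold wt'
  rw [Finset.sum_insert hnB]
  congr 1
  · congr 2
    rw [Finset.filter_true_of_mem, Finset.card_insert_of_notMem hnB]
    intro m hm
    rcases Finset.mem_insert.mp hm with h | h
    · exact h.le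
    · exact (hn m h).le
  · refine Finset.sum_congr rfl fun m hm => ?_
    congr 2
    rw [Finset.filter_insert, if_neg (not_le.mpr (hn m hm))]

open Classical in
/-- `CNT` -/
theorem cnt : ∀ Q C ε : ℝ, 1 < Q → 0 < C → 0 < ε → ∀ r0 N0 : ℕ, ∃ c : ℝ, 0 < c ∧
  ∃ D0 : ℕ, ∀ D : ℕ, D0 ≤ D → ∃ 𝒜 : Finset (Finset ℕ),
    (∀ A ∈ 𝒜, (∀ n ∈ A, N0 ≤ n) ∧ ∑ n ∈ A, n = D ∧ r0 ≤ A.card ∧ wt' Q C A ≤ ε) ∧
    c ≤ ∑ A ∈ 𝒜, ∏ n ∈ A, (1 / (n : ℝ)) := by
  intro Q C ε hQ hC hε r0 N0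
  have hQ0 : 0 < Q := by linarith
  have hq1 : |1 / Q| < 1 := by
    rw [abs_of_pos (by positivity), div_lt_one hQ0]
    exact hQ
  have hsum : Summable fun n : ℕ => C * (n : ℝ) ^ 3 / Q ^ n := by
    have := (summable_pow_mul_geometric_of_norm_lt_one 3 (r := 1 / Q) hq1).mul_left C
    refine this.congr fun n => ?_
    rw [one_div, inv_pow]
    ring
  set F := ∑' n : ℕ, C * (n : ℝ) ^ 3 / Q ^ n with hF
  have hF0 : 0 ≤ F := tsum_nonneg fun n => by positivity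
  obtain ⟨n1, hn1⟩ := exists_nat_ge (64 * F / ε)
  set n0 := max (max N0 1) n1 with hn0
  have h0 : 1 ≤ n0 := (le_max_right _ _).trans (le_max_left _ _)
  have h0N : N0 ≤ n0 := (le_max_left _ _).trans (le_max_left _ _)
  have h0' : (0 : ℝ) < n0 := by exact_mod_cast h0
  have hF2 : 4 / n0 * F ≤ ε / 16 := by
    have h1 : 64 * F / ε ≤ n0 := hn1.trans (by exact_mod_cast le_max_right _ _)
    rw [div_le_iff₀ hε] at h1
    rw [div_mul_eq_mul_div, div_le_iff₀ h0']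
    linarith
  -- the largest element
  have hlim : Filter.Tendsto (fun n : ℕ => 32 * C * ((n : ℝ) ^ 4 * (1 / Q) ^ n)) Filter.atTop
      (nhds 0) := by
    have := (summable_pow_mul_geometric_of_norm_lt_one 4 (r := 1 / Q) hq1).tendsto_atTop_zero
    simpa using this.const_mul (32 * C)
  obtain ⟨N1, hN1⟩ := Filter.eventually_atTop.mp (hlim.eventually_lt_const (half_pos hε))
  obtain ⟨y0, hy0⟩ := exists_nat_ge (64 * (4 : ℝ) ^ r0 * (n0 + 1))
  refine ⟨3 / (64 * n0), by positivity, 8 * (n0 + y0 + N0 + N1 + 2), fun D hD => ?_⟩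
  set y := D / 8 with hy
  have hy1 : n0 ≤ y := by omega
  have hy2 : y0 ≤ y := by omega
  have hy3 : 8 * y ≤ D := by omega
  have hy4 : D < 8 * (y + 1) := by omega
  set Z := ((y : ℝ) + 1) / n0 with hZ
  have hg := good_weight Q C ε hQ hC hε F n0 h0 y hy1
    (hsum.sum_le_tsum _ fun n _ => by positivity) hF2 r0 D hy3 (by
      refine hy0.trans ?_
      have : (y0 : ℝ) ≤ y := by exact_mod_cast hy2
      linarith)
  rw [← hZ] at hg
  set G := (Icc n0 y).powerset.filter (Gd Q C ε Z r0 D) with hG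
  set g : Finset ℕ → Finset ℕ := fun B => insert (D - ∑ n ∈ B, n) B with hgdef
  have hsub : ∀ B ∈ G, B ⊆ Icc n0 y := fun B hB =>
    Finset.mem_powerset.mp (Finset.mem_filter.mp hB).1
  have hgd : ∀ B ∈ G, Gd Q C ε Z r0 D B := fun B hB => (Finset.mem_filter.mp hB).2
  have hlt : ∀ B ∈ G, ∀ m ∈ B, m < D - ∑ n ∈ B, n := by
    intro B hB m hm
    have h1 := (Finset.mem_Icc.mp (hsub B hB hm)).2
    have h2 := (hgd B hB).1
    omega
  have hinj : ∀ B ∈ G, ∀ B' ∈ G, g B = g B' → B = B' := by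
    have key : ∀ B ∈ G, B = (g B).filter (fun m => m ≤ y) := by
      intro B hB
      have h2 := (hgd B hB).1
      show B = (insert (D - ∑ n ∈ B, n) B).filter (fun m => m ≤ y)
      rw [Finset.filter_insert, if_neg (by omega), Finset.filter_true_of_mem]
      exact fun m hm => (Finset.mem_Icc.mp (hsub B hB hm)).2
    intro B hB B' hB' h
    rw [key B hB, key B' hB', h]
  refine ⟨G.image g, ?_, ?_⟩
  · intro A hA
    obtain ⟨B, hB, rfl⟩ := Finset.mem_image.mp hA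
    obtain ⟨c1, c2, c3, c4⟩ := hgd B hB
    have hnB : D - ∑ n ∈ B, n ∉ B := fun h => lt_irrefl _ (hlt B hB _ h)
    refine ⟨?_, ?_, ?_, ?_⟩
    · intro n hn
      rcases Finset.mem_insert.mp hn with h | h
      · omega
      · exact h0N.trans (Finset.mem_Icc.mp (hsub B hB h)).1
    · show ∑ n ∈ insert (D - ∑ n ∈ B, n) B, n = D
      rw [Finset.sum_insert hnB]
      omega
    · show r0 ≤ (insert (D - ∑ n ∈ B, n) B).card
      rw [Finset.card_insert_of_notMem hnB]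
      omega
    · show wt' Q C (insert (D - ∑ n ∈ B, n) B) ≤ ε
      rw [wt'_insert Q C B _ (hlt B hB)]
      set n' := D - ∑ n ∈ B, n with hn'
      have hn1' : N1 ≤ n' := by omega
      have hD' : D ≤ 2 * n' := by omega
      have h1 := hN1 n' hn1'
      have hn0' : (0 : ℝ) < n' := by exact_mod_cast (by omega : 0 < n')
      have h3 : (2 : ℝ) ^ (B.card + 1) ≤ 32 * n' := by
        rw [pow_succ]
        have h4 : Z ≤ (y : ℝ) + 1 := by
          rw [hZ]
          exact div_le_self (by positivity) (by exact_mod_cast h0)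
        have h5 : (y : ℝ) + 1 ≤ 2 * n' := by exact_mod_cast (by omega : y + 1 ≤ 2 * n')
        linarith
      have h6 : (2 : ℝ) ^ (B.card + 1) * (C * (n' : ℝ) ^ 3 / Q ^ n') ≤
          32 * C * ((n' : ℝ) ^ 4 * (1 / Q) ^ n') := by
        refine (mul_le_mul_of_nonneg_right h3 (by positivity)).trans (le_of_eq ?_)
        rw [one_div, inv_pow]
        ring
      linarith
  · rw [Finset.sum_image hinj]
    have hD0 : (0 : ℝ) < D := by exact_mod_cast (by omega : 0 < D)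
    have h1 : ∀ B ∈ G, 1 / (D : ℝ) * W B ≤ ∏ n ∈ g B, (1 / (n : ℝ)) := by
      intro B hB
      have hnB : D - ∑ n ∈ B, n ∉ B := fun h => lt_irrefl _ (hlt B hB _ h)
      have h2 := (hgd B hB).1
      show _ ≤ ∏ n ∈ insert (D - ∑ n ∈ B, n) B, (1 / (n : ℝ))
      rw [Finset.prod_insert hnB]
      refine mul_le_mul_of_nonneg_right ?_ (W_nonneg B)
      refine one_div_le_one_div_of_le ?_ ?_
      · exact_mod_cast (by omega : 0 < D - ∑ n ∈ B, n)
      · exact_mod_cast Nat.sub_le _ _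
    refine le_trans ?_ (Finset.sum_le_sum h1)
    rw [← Finset.mul_sum]
    refine le_trans ?_ (mul_le_mul_of_nonneg_left hg (by positivity))
    rw [hZ]
    have h5 : (D : ℝ) ≤ 8 * ((y : ℝ) + 1) := by exact_mod_cast hy4.le
    rw [one_div_mul_eq_div, le_div_iff₀ hD0]
    calc 3 / (64 * (n0 : ℝ)) * D ≤ 3 / (64 * (n0 : ℝ)) * (8 * ((y : ℝ) + 1)) :=
          mul_le_mul_of_nonneg_left h5 (by positivity)
      _ = 3 / 8 * (((y : ℝ) + 1) / n0) := by field_simp; ring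

end Pool.Agent.D0H49.OD
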