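import Pool.Agent.D0H99.OD.Stm
import Pool.Agent.D0H49.OD.Cnt0

/-!
Project OD (helper99), module `CNT`: `t_CNT : S_CNT`; the proof is `cnt` of `Cnt0`.
-/

set_option autoImplicit false

namespace Pool.Agent.D0H49.OD

/-- `CNT` -/
theorem t_CNT : Pool.Agent.D0H99.OD.S_CNT := cnt

end Pool.Agent.D0H49.OD
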