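import Pool.Agent.D0H99.OD.Stm2
import Pool.Agent.D0H52.OD.Per

set_option autoImplicit false

/-! Project OD (helper99), module CON: for almost all matrices the proportions over `p` are as
expected (from the second moment, which is module MOM2 of helper52). -/

namespace Pool.Agent.D0H49.OD

open Finset Pool.Agent.D0H99.RM Pool.Agent.D0H99.OD Filter Topology Matrix
open Pool.Agent.D0H52.RM Pool.Agent.D0H52.OD

/-- the quadratic form of a symmetric matrix over the field with two elements -/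
theorem quad {J : Type} [Fintype J] [DecidableEq J] (M : Matrix J J (ZMod 2)) (hs : Mᵀ = M)
    (x : J → ZMod 2) : ∑ i, x i * (M *ᵥ x) i = ∑ i, M i i * x i := by
  have hsq : ∀ c : ZMod 2, c * c = c := by decide
  have hsym : ∀ i j, M i j = M j i := fun i j => by
    conv_lhs => rw [← hs]
    rfl
  have h1 : ∑ i, x i * (M *ᵥ x) i = ∑ p : J × J, x p.1 * M p.1 p.2 * x p.2 := by
    rw [Fintype.sum_prod_type]
    refine Finset.sum_congr rfl fun i _ => ?_
    change x i * ∑ j, M i j * x j = _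
    rw [Finset.mul_sum]
    refine Finset.sum_congr rfl fun j _ => ?_
    ring
  have h2 : ∑ i, M i i * x i =
      ∑ p : J × J, (if p.1 = p.2 then x p.1 * M p.1 p.2 * x p.2 else 0) := by
    rw [Fintype.sum_prod_type]
    refine Finset.sum_congr rfl fun i _ => ?_
    rw [Finset.sum_ite_eq, if_pos (Finset.mem_univ _)]
    have := hsq (x i)
    linear_combination (- M i i) * this
  have h3 : ∑ p : J × J, (if p.1 = p.2 then 0 else x p.1 * M p.1 p.2 * x p.2) = 0 := by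
    refine Finset.sum_involution (fun p _ => (p.2, p.1)) ?_ ?_ ?_ ?_
    · intro p _
      change (if p.1 = p.2 then (0 : ZMod 2) else x p.1 * M p.1 p.2 * x p.2) +
        (if p.2 = p.1 then 0 else x p.2 * M p.2 p.1 * x p.1) = 0
      by_cases h : p.1 = p.2
      · rw [if_pos h, if_pos h.symm, add_zero]
      · rw [if_neg h, if_neg (fun h' => h h'.symm), hsym p.2 p.1]
        have h4 : x p.2 * M p.1 p.2 * x p.1 = x p.1 * M p.1 p.2 * x p.2 := by ring
        rw [h4]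
        exact CharTwo.add_self_eq_zero _
    · intro p _ hne heq
      apply hne
      have h4 : p.2 = p.1 := congrArg Prod.fst heq
      rw [if_pos h4.symm]
    · intro p _
      exact Finset.mem_univ _
    · intro p _
      rfl
  rw [h1, h2]
  have h4 : ∑ p : J × J, x p.1 * M p.1 p.2 * x p.2 =
      ∑ p : J × J, (if p.1 = p.2 then x p.1 * M p.1 p.2 * x p.2 else 0) +
        ∑ p : J × J, (if p.1 = p.2 then 0 else x p.1 * M p.1 p.2 * x p.2) := by
    rw [← Finset.sum_add_distrib]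
    refine Finset.sum_congr rfl fun p _ => ?_
    by_cases h : p.1 = p.2
    · rw [if_pos h, if_pos h, add_zero]
    · rw [if_neg h, if_neg h, zero_add]
  rw [h4, h3, add_zero]

variable {r : ℕ}

/-- the special orthogonal vector -/
theorem orth (δ : Fin r → ZMod 2) (hδ : ∑ i, δ i = 0) (κ lam : ZMod 2) (x : X 2 2 r)
    (a : Fin r → V 2 2) :
    ∑ p : Fin r × Fin 2, (a p.1 (p.2 + 1) + 1) * EP δ κ lam x a p.1 p.2 = 0 := by
  let M := PM δ κ lam x
  let u : Fin r × Fin 2 → ZMod 2 := fun p => a p.1 p.2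
  have hM : Mᵀ = M := PM_symm δ κ lam x
  have hdiag : ∀ p : Fin r × Fin 2, M p p = x.2 p.1 p.2 + δ p.1 * lam := by
    intro p
    change PM δ κ lam x p p = _
    unfold PM
    rw [if_pos rfl, if_pos rfl]
  have h1 : ∑ p : Fin r × Fin 2, (a p.1 (p.2 + 1) + 1) * EP δ κ lam x a p.1 p.2 =
      ∑ q : Fin r × Fin 2, (u q + 1) * (M *ᵥ u) q := by
    refine Fintype.sum_equiv (Equiv.prodCongr (Equiv.refl (Fin r)) (Equiv.addRight (1 : Fin 2)))
      _ _ ?_
    rintro ⟨i, b⟩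
    change (a i (b + 1) + 1) * EP δ κ lam x a i b = (a i (b + 1) + 1) *
      (PM δ κ lam x *ᵥ (fun p : Fin r × Fin 2 => a p.1 p.2)) (i, b + 1)
    rw [PM_mul]
    have h3 : b + 1 + 1 = b := by
      fin_cases b <;> rfl
    rw [h3]
  rw [h1]
  have h2 : ∑ q, (u q + 1) * (M *ᵥ u) q = ∑ q, u q * (M *ᵥ u) q + ∑ q, (M *ᵥ u) q := by
    rw [← Finset.sum_add_distrib]
    refine Finset.sum_congr rfl fun q _ => ?_
    ring
  have h3 : ∑ q, (M *ᵥ u) q = ∑ q, M q q * u q := by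
    have h4 : ∑ q, (M *ᵥ u) q = (fun _ => (1 : ZMod 2)) ⬝ᵥ (M *ᵥ u) := by
      change _ = ∑ q, 1 * (M *ᵥ u) q
      refine Finset.sum_congr rfl fun q _ => ?_
      rw [one_mul]
    rw [h4, Matrix.dotProduct_mulVec, ← Matrix.mulVec_transpose, hM]
    change ∑ q, (M *ᵥ fun _ => (1 : ZMod 2)) q * u q = _
    refine Finset.sum_congr rfl fun q _ => ?_
    rw [hdiag]
    congr 1
    exact PM_one δ hδ κ lam x q.1 q.2
  rw [h2, quad M hM u, h3]
  exact CharTwo.add_self_eq_zero _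

/-- solvability of a linear system -/
theorem mem_range_of {K : Type} [Field K] {A : Type} [AddCommGroup A] [Module K A] {ι : Type}
    [Fintype ι] [DecidableEq ι] (f : A →ₗ[K] (ι → K)) (D : ι → K)
    (h : ∀ c : ι → K, (∀ x, ∑ i, c i * f x i = 0) → ∑ i, c i * D i = 0) : ∃ x, f x = D := by
  by_contra hno
  have h1 : D ∉ LinearMap.range f := fun ⟨x, hx⟩ => hno ⟨x, hx⟩
  obtain ⟨g, hg1, hg2⟩ := Submodule.exists_le_ker_of_notMem h1
  have h2 : ∀ v : ι → K, g v = ∑ i, g (fun j => if i = j then 1 else 0) * v i := by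
    intro v
    rw [LinearMap.pi_apply_eq_sum_univ g v]
    refine Finset.sum_congr rfl fun i _ => ?_
    rw [smul_eq_mul, mul_comm]
  apply hg1
  rw [h2]
  apply h
  intro x
  rw [← h2]
  exact hg2 ⟨x, rfl⟩

/-- the constant part of the system -/
def DD (δ : Fin r → ZMod 2) (κ lam : ZMod 2) (a : Fin r → V 2 2) : Fin r × Fin 2 → ZMod 2 :=
  fun p => EP δ κ lam 0 a p.1 p.2

theorem sy_zero (i j : Fin r) : sy (0 : ∀ i : Fin r, Fin (i : ℕ) → ZMod 2) i j = 0 := by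
  unfold sy
  split_ifs <;> rfl

theorem EP_eq (δ : Fin r → ZMod 2) (κ lam : ZMod 2) (x : X 2 2 r) (a : Fin r → V 2 2)
    (p : Fin r × Fin 2) :
    EP δ κ lam x a p.1 p.2 = Lam (fun _ => 1) a x p + DD δ κ lam a p := by
  have h0 : (∑ y, sy (0 : X 2 2 r).1 p.1 y * (a p.1 p.2 - a y p.2) +
      ∑ s, a p.1 s * (0 : X 2 2 r).2 p.1 s + a p.1 p.2 * (0 : X 2 2 r).2 p.1 p.2) = 0 := by
    have h1 : ∀ y, sy (0 : X 2 2 r).1 p.1 y = 0 := fun y => sy_zero p.1 y
    simp only [h1, zero_mul, Finset.sum_const_zero, zero_add]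
    simp
  change EP δ κ lam x a p.1 p.2 = (∑ y, 1 * sy x.1 p.1 y * (a p.1 p.2 - a y p.2) +
    ∑ s, a p.1 s * x.2 p.1 s + a p.1 p.2 * x.2 p.1 p.2) + EP δ κ lam 0 a p.1 p.2
  unfold EP
  rw [h0, zero_add]
  simp only [one_mul]

theorem psol_Lam (δ : Fin r → ZMod 2) (κ lam : ZMod 2) (x : X 2 2 r) (a : Fin r → V 2 2) :
    PSol δ κ lam (sy x.1) x.2 a ↔ Lam (fun _ => 1) a x = DD δ κ lam a := by
  have hc : ∀ u v : ZMod 2, u + v = 0 ↔ u = v := by decide
  constructor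
  · intro h
    funext p
    rw [← hc, ← EP_eq]
    exact h p.1 p.2
  · intro h i b
    have h1 := EP_eq δ κ lam x a (i, b)
    rw [h, (hc _ _).mpr rfl] at h1
    exact h1

/-- the special vector is in the annihilator -/
theorem orth_Lam (x : X 2 2 r) (a : Fin r → V 2 2) :
    ∑ p : Fin r × Fin 2, (a p.1 (p.2 + 1) + 1) * Lam (fun _ => 1) a x p = 0 := by
  have h1 := orth (fun _ : Fin r => (0 : ZMod 2)) (by simp) 0 0 x a
  rw [← h1]
  refine Finset.sum_congr rfl fun p _ => ?_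
  rw [EP_eq]
  have h2 : DD (fun _ : Fin r => (0 : ZMod 2)) 0 0 a p = 0 := by
    unfold DD EP
    have h3 : ∀ y, sy (0 : X 2 2 r).1 p.1 y = 0 := fun y => sy_zero p.1 y
    simp only [h3, zero_mul, Finset.sum_const_zero, zero_add]
    simp
  rw [h2, add_zero]

theorem orth_DD (δ : Fin r → ZMod 2) (hδ : ∑ i, δ i = 0) (κ lam : ZMod 2) (a : Fin r → V 2 2) :
    ∑ p : Fin r × Fin 2, (a p.1 (p.2 + 1) + 1) * DD δ κ lam a p = 0 :=
  orth δ hδ κ lam 0 a

/-- the number of the points of the annihilator is a power of two -/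
theorem ann_pow (a : Fin r → V 2 2) : ∃ d : ℕ, Nat.card (Ann (fun _ : Fin r => (1 : ZMod 2)) a) = 2 ^ d := by
  have h1 := card_ker (Lam (fun _ : Fin r => (1 : ZMod 2)) a)
  have hX : Nat.card (X 2 2 r) ≠ 0 := by
    have : Nonempty (X 2 2 r) := ⟨0⟩
    exact Nat.card_pos.ne'
  have h2 : Nat.card (LinearMap.ker (Lam (fun _ : Fin r => (1 : ZMod 2)) a)) =
      2 ^ Module.finrank (ZMod 2) (LinearMap.ker (Lam (fun _ : Fin r => (1 : ZMod 2)) a)) := by
    rw [Module.natCard_eq_pow_finrank (K := ZMod 2), Nat.card_zmod]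
  have h3 : Nat.card (Fin r × Fin 2 → ZMod 2) = 2 ^ Fintype.card (Fin r × Fin 2) := by
    rw [Nat.card_eq_fintype_card, Fintype.card_fun, ZMod.card]
  have h4 : Nat.card (Ann (fun _ : Fin r => (1 : ZMod 2)) a) ∣
      2 ^ (Module.finrank (ZMod 2) (LinearMap.ker (Lam (fun _ : Fin r => (1 : ZMod 2)) a)) +
        Fintype.card (Fin r × Fin 2)) := by
    rw [pow_add, ← h2, ← h3, h1]
    exact Dvd.intro_left _ rfl
  obtain ⟨d, -, hd⟩ := (Nat.dvd_prime_pow Nat.prime_two).mp h4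
  exact ⟨d, hd⟩

open Classical in
/-- the number of the data for a given vector -/
noncomputable def NN (δ : Fin r → ZMod 2) (κ lam : ZMod 2) (a : Fin r → V 2 2) : ℕ :=
  (Finset.univ.filter fun x : X 2 2 r => PSol δ κ lam (sy x.1) x.2 a).card

theorem card_Q : Nat.card (Fin r × Fin 2 → ZMod 2) = 4 ^ r := by
  rw [Nat.card_eq_fintype_card, Fintype.card_fun, ZMod.card, Fintype.card_prod,
    Fintype.card_fin, Fintype.card_fin, mul_comm, pow_mul]
  norm_num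

/-- the count when the system is solvable -/
theorem NN_ge (δ : Fin r → ZMod 2) (κ lam : ZMod 2) (a : Fin r → V 2 2)
    (h : ∃ x, Lam (fun _ : Fin r => (1 : ZMod 2)) a x = DD δ κ lam a) :
    Nat.card (X 2 2 r) * Nat.card (Ann (fun _ : Fin r => (1 : ZMod 2)) a) ≤
      NN δ κ lam a * 4 ^ r := by
  classical
  obtain ⟨x0, hx0⟩ := h
  have h1 := card_ker (Lam (fun _ : Fin r => (1 : ZMod 2)) a)
  rw [card_Q] at h1
  have h2 : Nat.card (LinearMap.ker (Lam (fun _ : Fin r => (1 : ZMod 2)) a)) ≤ NN δ κ lam a := by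
    unfold NN
    rw [Nat.card_eq_fintype_card, Fintype.card_subtype]
    refine Finset.card_le_card_of_injOn (fun x => x + x0) ?_ ?_
    · intro x hx
      have hx' := (Finset.mem_filter.mp (Finset.mem_coe.mp hx)).2
      refine Finset.mem_coe.mpr (Finset.mem_filter.mpr ⟨Finset.mem_univ _, ?_⟩)
      rw [psol_Lam, map_add, hx0, LinearMap.mem_ker.mp hx', zero_add]
    · intro x _ y _ hxy
      exact add_left_injective x0 hxy
  calc _ = Nat.card (LinearMap.ker (Lam (fun _ : Fin r => (1 : ZMod 2)) a)) * 4 ^ r := h1.symm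
    _ ≤ _ := Nat.mul_le_mul_right _ h2

/-- the lower bound for the general vector -/
theorem NN_gen (δ : Fin r → ZMod 2) (hδ : ∑ i, δ i = 0) (κ lam : ZMod 2) (a : Fin r → V 2 2)
    (ha : a ≠ fun _ _ => 1) :
    4 * Nat.card (X 2 2 r) ≤ NN δ κ lam a * 4 ^ r +
      Nat.card (X 2 2 r) * Nat.card (Ann (fun _ : Fin r => (1 : ZMod 2)) a) := by
  classical
  have hfin : Finite (Ann (fun _ : Fin r => (1 : ZMod 2)) a) := by
    unfold Ann
    infer_instance
  let c0 : Ann (fun _ : Fin r => (1 : ZMod 2)) a := ⟨fun _ => 0, fun x => by simp⟩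
  let c1 : Ann (fun _ : Fin r => (1 : ZMod 2)) a :=
    ⟨fun p => a p.1 (p.2 + 1) + 1, fun x => orth_Lam x a⟩
  have hne : c0 ≠ c1 := by
    intro h
    apply ha
    funext i b
    have h1 : (0 : ZMod 2) = a i (b + 1 + 1) + 1 := congrFun (congrArg Subtype.val h) (i, b + 1)
    have h3 : b + 1 + 1 = b := by
      fin_cases b <;> rfl
    rw [h3] at h1
    have h4 : ∀ c : ZMod 2, 0 = c + 1 → c = 1 := by decide
    exact h4 _ h1
  obtain ⟨d, hd⟩ := ann_pow a
  rcases Nat.lt_or_ge d 2 with hd2 | hd2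
  · have hgt : 1 < Nat.card (Ann (fun _ : Fin r => (1 : ZMod 2)) a) := by
      rw [Finite.one_lt_card_iff_nontrivial]
      exact ⟨c0, c1, hne⟩
    have hd1 : d = 1 := by
      have : d ≠ 0 := by
        rintro rfl
        rw [hd] at hgt
        norm_num at hgt
      omega
    rw [hd1, pow_one] at hd
    have hall : ∀ c : Ann (fun _ : Fin r => (1 : ZMod 2)) a, c = c0 ∨ c = c1 := by
      intro c
      have h5 := (Nat.card_eq_two_iff' c0).mp hd
      obtain ⟨y, hy1, hy2⟩ := h5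
      by_cases hc : c = c0
      · exact Or.inl hc
      · right
        rw [hy2 c hc, hy2 c1 hne.symm]
    have hsol : ∃ x, Lam (fun _ : Fin r => (1 : ZMod 2)) a x = DD δ κ lam a := by
      apply mem_range_of
      intro c hc
      rcases hall ⟨c, hc⟩ with h5 | h5
      · have h6 : c = fun _ => 0 := congrArg Subtype.val h5
        rw [h6]
        simp
      · have h6 : c = fun p => a p.1 (p.2 + 1) + 1 := congrArg Subtype.val h5
        rw [h6]
        exact orth_DD δ hδ κ lam a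
    have h7 := NN_ge δ κ lam a hsol
    rw [hd] at h7 ⊢
    omega
  · have h5 : 4 ≤ Nat.card (Ann (fun _ : Fin r => (1 : ZMod 2)) a) := by
      rw [hd]
      calc 4 = 2 ^ 2 := by norm_num
        _ ≤ _ := Nat.pow_le_pow_right (by norm_num) hd2
    have h6 := Nat.mul_le_mul_left (Nat.card (X 2 2 r)) h5
    omega

/-- the vector zero -/
theorem NN_zero (δ : Fin r → ZMod 2) (κ lam : ZMod 2) :
    2 * Nat.card (X 2 2 r) * 4 ^ r ≤ NN δ κ lam (0 : Fin r → V 2 2) * 4 ^ r +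
      Nat.card (X 2 2 r) * Nat.card (Ann (fun _ : Fin r => (1 : ZMod 2)) (0 : Fin r → V 2 2)) := by
  classical
  have hL : ∀ x : X 2 2 r, Lam (fun _ : Fin r => (1 : ZMod 2)) (0 : Fin r → V 2 2) x = 0 := by
    intro x
    funext p
    change ∑ y, 1 * sy x.1 p.1 y * ((0 : Fin r → V 2 2) p.1 p.2 - (0 : Fin r → V 2 2) y p.2) +
      ∑ s, (0 : Fin r → V 2 2) p.1 s * x.2 p.1 s + (0 : Fin r → V 2 2) p.1 p.2 * x.2 p.1 p.2 = 0
    simp
  have h1 : Nat.card (Ann (fun _ : Fin r => (1 : ZMod 2)) (0 : Fin r → V 2 2)) = 4 ^ r := by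
    rw [← card_Q]
    refine Nat.card_congr (Equiv.subtypeUnivEquiv ?_)
    intro c x
    rw [hL]
    simp
  have hD : DD δ κ lam (0 : Fin r → V 2 2) = 0 := by
    funext p
    unfold DD EP
    simp
  have h2 : NN δ κ lam (0 : Fin r → V 2 2) = Nat.card (X 2 2 r) := by
    unfold NN
    rw [Finset.filter_true_of_mem, Finset.card_univ, Nat.card_eq_fintype_card]
    intro x _
    rw [psol_Lam, hL, hD]
  rw [h1, h2]
  apply le_of_eq
  ring

theorem sum_nsolP (δ : Fin r → ZMod 2) (κ lam : ZMod 2) :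
    ∑ x : X 2 2 r, nsolP δ κ lam x = ∑ a : Fin r → V 2 2, NN δ κ lam a := by
  classical
  simp only [nsolP_eq]
  rw [Finset.sum_comm]
  refine Finset.sum_congr rfl fun a _ => ?_
  rw [← Finset.card_filter]
  unfold NN
  congr 1

/-- the first moment from below -/
theorem first (hr : 1 ≤ r) (δ : Fin r → ZMod 2) (hδ : ∑ i, δ i = 0) (κ lam : ZMod 2) :
    6 * Nat.card (X 2 2 r) * 4 ^ r ≤ (∑ x : X 2 2 r, nsolP δ κ lam x) * 4 ^ r +
      Nat.card (X 2 2 r) * (3 * 4 ^ r + 2 ^ 16 * 3 ^ r + 8) := by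
  classical
  have hQ : Fintype.card (Fin r → V 2 2) = 4 ^ r := by
    rw [Fintype.card_fun, card_V, Fintype.card_fin]
    norm_num
  have hne : (0 : Fin r → V 2 2) ≠ fun _ _ => 1 := by
    intro h
    have h1 : (0 : ZMod 2) = 1 := congrFun (congrFun h ⟨0, by omega⟩) 0
    exact absurd h1 (by decide)
  have hann : ∑ a : Fin r → V 2 2, Nat.card (Ann (fun _ : Fin r => (1 : ZMod 2)) a) ≤
      3 * 4 ^ r + 2 ^ 16 * 3 ^ r := by
    refine (sum_ann _ (fun _ => one_ne_zero)).trans ((good_card2 cl2 even_two).trans ?_)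
    norm_num
  have hsum : ∑ a : Fin r → V 2 2, (NN δ κ lam a * 4 ^ r +
      Nat.card (X 2 2 r) * Nat.card (Ann (fun _ : Fin r => (1 : ZMod 2)) a)) =
      (∑ x : X 2 2 r, nsolP δ κ lam x) * 4 ^ r + Nat.card (X 2 2 r) *
        ∑ a : Fin r → V 2 2, Nat.card (Ann (fun _ : Fin r => (1 : ZMod 2)) a) := by
    rw [sum_nsolP, Finset.sum_add_distrib, Finset.sum_mul, Finset.mul_sum]
  have hlow : ∑ a : Fin r → V 2 2, (if a = 0 then 2 * Nat.card (X 2 2 r) * 4 ^ r else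
      if a = fun _ _ => 1 then 0 else 4 * Nat.card (X 2 2 r)) ≤
      ∑ a : Fin r → V 2 2, (NN δ κ lam a * 4 ^ r +
      Nat.card (X 2 2 r) * Nat.card (Ann (fun _ : Fin r => (1 : ZMod 2)) a)) := by
    refine Finset.sum_le_sum fun a _ => ?_
    by_cases h0 : a = 0
    · rw [if_pos h0, h0]
      exact NN_zero δ κ lam
    · rw [if_neg h0]
      by_cases h1 : a = fun _ _ => 1
      · rw [if_pos h1]
        exact Nat.zero_le _
      · rw [if_neg h1]
        exact NN_gen δ hδ κ lam a h1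
  have hval : 2 * Nat.card (X 2 2 r) * 4 ^ r + 4 * Nat.card (X 2 2 r) * 4 ^ r ≤
      ∑ a : Fin r → V 2 2, (if a = 0 then 2 * Nat.card (X 2 2 r) * 4 ^ r else
      if a = fun _ _ => 1 then 0 else 4 * Nat.card (X 2 2 r)) + 8 * Nat.card (X 2 2 r) := by
    have h1 : ∑ a : Fin r → V 2 2, 4 * Nat.card (X 2 2 r) = 4 * Nat.card (X 2 2 r) * 4 ^ r := by
      rw [Finset.sum_const, Finset.card_univ, hQ, smul_eq_mul, mul_comm]
    have h2 : ∑ a : Fin r → V 2 2, (4 * Nat.card (X 2 2 r) +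
        if a = 0 then 2 * Nat.card (X 2 2 r) * 4 ^ r else 0) ≤
        ∑ a : Fin r → V 2 2, ((if a = 0 then 2 * Nat.card (X 2 2 r) * 4 ^ r else
      if a = fun _ _ => 1 then 0 else 4 * Nat.card (X 2 2 r)) +
        ((if a = 0 then 4 * Nat.card (X 2 2 r) else 0) +
          if a = fun _ _ => 1 then 4 * Nat.card (X 2 2 r) else 0)) := by
      refine Finset.sum_le_sum fun a _ => ?_
      by_cases h0 : a = 0
      · rw [if_pos h0, if_pos h0, if_pos h0]
        omega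
      · rw [if_neg h0, if_neg h0, if_neg h0]
        by_cases h1 : a = fun _ _ => 1
        · rw [if_pos h1, if_pos h1]
          omega
        · rw [if_neg h1, if_neg h1]
    rw [Finset.sum_add_distrib, h1, Finset.sum_ite_eq', if_pos (Finset.mem_univ _),
      Finset.sum_add_distrib, Finset.sum_add_distrib, Finset.sum_ite_eq',
      if_pos (Finset.mem_univ _), Finset.sum_ite_eq', if_pos (Finset.mem_univ _)] at h2
    omega
  rw [hsum] at hlow
  have h5 := Nat.mul_le_mul_left (Nat.card (X 2 2 r)) hann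
  have h6 : Nat.card (X 2 2 r) * (3 * 4 ^ r + 2 ^ 16 * 3 ^ r + 8) =
      Nat.card (X 2 2 r) * (3 * 4 ^ r + 2 ^ 16 * 3 ^ r) + 8 * Nat.card (X 2 2 r) := by ring
  have h7 : 6 * Nat.card (X 2 2 r) * 4 ^ r =
      2 * Nat.card (X 2 2 r) * 4 ^ r + 4 * Nat.card (X 2 2 r) * 4 ^ r := by ring
  rw [h6, h7]
  omega

open Classical in
/-- the signed sum for a fixed matrix -/
theorem csigned (δ : Fin r → ZMod 2) (hδ : ∑ i, δ i = 0) (κ lam : ZMod 2) (B : Bm r) :
    ∑ x : X 2 2 r with pr x = 0, nsolP δ κ lam (B, x.2) =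
      ∑ x : X 2 2 r with pr x ≠ 0, nsolP δ κ lam (B, x.2) + Nat.card (Bm r) := by
  have hnx : ∀ x : X 2 2 r, nsolP δ κ lam (B, x.2) =
      ∑ a : Fin r → V 2 2, if PSol δ κ lam (sy B) x.2 a then 1 else 0 :=
    fun x => nsolP_eq δ κ lam (B, x.2)
  have hsw : ∀ (Q : X 2 2 r → Prop) [DecidablePred Q],
      ∑ x : X 2 2 r with Q x, nsolP δ κ lam (B, x.2) =
      ∑ a : Fin r → V 2 2, (Finset.univ.filter fun x : X 2 2 r =>
        PSol δ κ lam (sy B) x.2 a ∧ Q x).card := by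
    intro Q _
    simp only [hnx]
    rw [Finset.sum_comm]
    refine Finset.sum_congr rfl fun a _ => ?_
    rw [← Finset.card_filter, Finset.filter_filter]
    congr 1
    ext x
    simp only [Finset.mem_filter]
    tauto
  rw [hsw, hsw]
  rw [← Finset.add_sum_erase _ _ (Finset.mem_univ (fun _ _ => 1 : Fin r → V 2 2))]
  rw [← Finset.add_sum_erase _ (fun a : Fin r → V 2 2 => (Finset.univ.filter
    fun x : X 2 2 r => PSol δ κ lam (sy B) x.2 a ∧ pr x ≠ 0).card)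
    (Finset.mem_univ (fun _ _ => 1 : Fin r → V 2 2))]
  have h1 : ∀ a ∈ (Finset.univ : Finset (Fin r → V 2 2)).erase (fun _ _ => 1),
      (Finset.univ.filter fun x : X 2 2 r => PSol δ κ lam (sy B) x.2 a ∧ pr x = 0).card =
      (Finset.univ.filter fun x : X 2 2 r => PSol δ κ lam (sy B) x.2 a ∧ pr x ≠ 0).card := by
    intro a ha
    have h2 : ∃ i s, a i s = 0 := by
      by_contra hcon
      push Not at hcon
      apply (Finset.mem_erase.mp ha).1
      funext i s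
      have h3 : ∀ c : ZMod 2, c ≠ 0 → c = 1 := by decide
      exact h3 _ (hcon i s)
    obtain ⟨i, s, his⟩ := h2
    exact card_flip i s (fun x : X 2 2 r => PSol δ κ lam (sy B) x.2 a)
      (fun x => psol_flip δ κ lam i s (B, x.2) a his)
  rw [Finset.sum_congr rfl h1]
  have hpr : ∀ x : X 2 2 r, x.2 = (fun i _ => δ i * lam) → pr x = 0 := by
    intro x hx
    unfold pr
    rw [hx]
    apply Finset.sum_eq_zero
    intro i _
    rw [Fin.sum_univ_two]
    exact CharTwo.add_self_eq_zero _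
  have hone : ∀ x : X 2 2 r, PSol δ κ lam (sy B) x.2 (fun _ _ => 1) ↔
      x.2 = fun i _ => δ i * lam := fun x => psol_one δ hδ κ lam (B, x.2)
  have h2 : (Finset.univ.filter fun x : X 2 2 r =>
      PSol δ κ lam (sy B) x.2 (fun _ _ => 1) ∧ pr x ≠ 0).card = 0 := by
    rw [Finset.card_eq_zero, Finset.filter_eq_empty_iff]
    rintro x - ⟨hx1, hx2⟩
    rw [hone] at hx1
    exact hx2 (hpr x hx1)
  have h3 : (Finset.univ.filter fun x : X 2 2 r =>
      PSol δ κ lam (sy B) x.2 (fun _ _ => 1) ∧ pr x = 0).card = Nat.card (Bm r) := by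
    rw [Nat.card_eq_fintype_card, ← Finset.card_univ (α := Bm r)]
    refine Finset.card_nbij' (fun x => x.1) (fun B' => (B', fun i _ => δ i * lam)) ?_ ?_ ?_ ?_
    · intro x _
      exact Finset.mem_coe.mpr (Finset.mem_univ _)
    · intro B' _
      refine Finset.mem_coe.mpr (Finset.mem_filter.mpr ⟨Finset.mem_univ _, ?_, ?_⟩)
      · exact (hone (B', fun i _ => δ i * lam)).mpr rfl
      · exact hpr _ rfl
    · intro x hx
      have hx' := (Finset.mem_filter.mp (Finset.mem_coe.mp hx)).2.1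
      rw [hone] at hx'
      exact Prod.ext rfl hx'.symm
    · intro B' _
      rfl
  rw [h2, h3]
  ring

/-- the counts for a fixed matrix -/
theorem cond_counts (hr : 1 ≤ r) (δ : Fin r → ZMod 2) (hδ : ∑ i, δ i = 0) (κ lam : ZMod 2)
    (B : Bm r) :
    4 * Nat.card (Fin r → V 2 2) ≤ ∑ p : Fin r → V 2 2, nsolP δ κ lam (B, p) + 1 +
        6 * {p : Fin r → V 2 2 | nsolP δ κ lam (B, p) = 1}.ncard ∧
    16 * Nat.card (Fin r → V 2 2) ≤ 3 * ∑ p : Fin r → V 2 2, nsolP δ κ lam (B, p) + 1 +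
        12 * {p : Fin r → V 2 2 | nsolP δ κ lam (B, p) ≤ 2}.ncard := by
  classical
  obtain ⟨c1, c2⟩ := pcounts hr (fun x : X 2 2 r => nsolP δ κ lam (B, x.2))
    (fun x => ppar δ hδ κ lam (B, x.2))
  have hβ : 0 < Nat.card (Bm r) := Nat.card_pos
  have hX : Nat.card (X 2 2 r) = Nat.card (Bm r) * Nat.card (Fin r → V 2 2) := Nat.card_prod _ _
  have hset : ∀ P : ℕ → Prop, {x : X 2 2 r | P (nsolP δ κ lam (B, x.2))}.ncard =
      Nat.card (Bm r) * {p : Fin r → V 2 2 | P (nsolP δ κ lam (B, p))}.ncard := by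
    intro P
    have h1 : {x : X 2 2 r | P (nsolP δ κ lam (B, x.2))} =
        (Set.univ : Set (Bm r)) ×ˢ {p : Fin r → V 2 2 | P (nsolP δ κ lam (B, p))} := by
      ext x
      constructor
      · intro h
        exact ⟨Set.mem_univ _, h⟩
      · intro h
        exact h.2
    rw [h1, Set.ncard_prod, Set.ncard_univ]
  have hsum : ∑ x : X 2 2 r, nsolP δ κ lam (B, x.2) =
      Nat.card (Bm r) * ∑ p : Fin r → V 2 2, nsolP δ κ lam (B, p) := by
    rw [Fintype.sum_prod_type]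
    change ∑ _x : Bm r, ∑ y : Fin r → V 2 2, nsolP δ κ lam (B, y) = _
    rw [Finset.sum_const, Finset.card_univ, smul_eq_mul, Nat.card_eq_fintype_card]
  have hsig := csigned δ hδ κ lam B
  have hEO : ∑ x : X 2 2 r, nsolP δ κ lam (B, x.2) =
      ∑ x : X 2 2 r with pr x = 0, nsolP δ κ lam (B, x.2) +
      ∑ x : X 2 2 r with pr x ≠ 0, nsolP δ κ lam (B, x.2) :=
    (Finset.sum_filter_add_sum_filter_not _ _ _).symm
  have e1 := hset (fun n => n = 1)
  have e2 := hset (fun n => n ≤ 2)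
  rw [hsum] at hEO
  change 2 * Nat.card (X 2 2 r) ≤ ∑ x : X 2 2 r with pr x = 0, nsolP δ κ lam (B, x.2) +
    3 * ({x : X 2 2 r | nsolP δ κ lam (B, x.2) = 1}.ncard) at c1
  change 8 * Nat.card (X 2 2 r) ≤ ∑ x : X 2 2 r with pr x = 0, nsolP δ κ lam (B, x.2) +
    ∑ x : X 2 2 r with pr x = 0, nsolP δ κ lam (B, x.2) +
    ∑ x : X 2 2 r with pr x ≠ 0, nsolP δ κ lam (B, x.2) +
    6 * ({x : X 2 2 r | nsolP δ κ lam (B, x.2) ≤ 2}.ncard) at c2
  rw [e1, hX] at c1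
  rw [e2, hX] at c2
  set E := ∑ x : X 2 2 r with pr x = 0, nsolP δ κ lam (B, x.2)
  set O := ∑ x : X 2 2 r with pr x ≠ 0, nsolP δ κ lam (B, x.2)
  set β := Nat.card (Bm r)
  set Q := Nat.card (Fin r → V 2 2)
  set m := ∑ p : Fin r → V 2 2, nsolP δ κ lam (B, p)
  set n1 := {p : Fin r → V 2 2 | nsolP δ κ lam (B, p) = 1}.ncard
  set n2 := {p : Fin r → V 2 2 | nsolP δ κ lam (B, p) ≤ 2}.ncard
  constructor
  · refine Nat.le_of_mul_le_mul_left ?_ hβ
    have h1 : β * (4 * Q) = 2 * (2 * (β * Q)) := by ring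
    have h2 : β * (m + 1 + 6 * n1) = β * m + β + 2 * (3 * (β * n1)) := by ring
    rw [h1, h2]
    omega
  · refine Nat.le_of_mul_le_mul_left ?_ hβ
    have h1 : β * (16 * Q) = 2 * (8 * (β * Q)) := by ring
    have h2 : β * (3 * m + 1 + 12 * n2) = 3 * (β * m) + β + 2 * (6 * (β * n2)) := by ring
    rw [h1, h2]
    omega

/-- the statement of the second moment (module MOM2) -/
def S_MOM2 : Prop := ∀ (r : ℕ) (δ : Fin r → ZMod 2) (κ lam : ZMod 2),
  ∑ B : Bm r, (∑ p : Fin r → V 2 2, nsolP δ κ lam (B, p)) ^ 2 ≤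
    Nat.card (Bm r) * (9 * 16 ^ r + 2 ^ 256 * 15 ^ r)

/-- Chebyshev's inequality -/
theorem cheb (hM : S_MOM2) (hr : 1 ≤ r) (δ : Fin r → ZMod 2) (hδ : ∑ i, δ i = 0)
    (κ lam : ZMod 2) (ε : ℝ) (hε : 0 < ε) :
    ({B : Bm r | (3 + ε) * (4 : ℝ) ^ r ≤
      ((∑ p : Fin r → V 2 2, nsolP δ κ lam (B, p) : ℕ) : ℝ)}.ncard : ℝ) * ε ^ 2 ≤
    (Nat.card (Bm r) : ℝ) * ((2 : ℝ) ^ 256 * ((15 : ℝ) / 16) ^ r +
      6 * 2 ^ 16 * ((3 : ℝ) / 4) ^ r + 48 * ((1 : ℝ) / 4) ^ r) := by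
  classical
  let m : Bm r → ℕ := fun B => ∑ p : Fin r → V 2 2, nsolP δ κ lam (B, p)
  change ({B : Bm r | (3 + ε) * (4 : ℝ) ^ r ≤ ((m B : ℕ) : ℝ)}.ncard : ℝ) * ε ^ 2 ≤ _
  have hQ : Nat.card (Fin r → V 2 2) = 4 ^ r := by
    rw [Nat.card_eq_fintype_card, Fintype.card_fun, card_V, Fintype.card_fin]
    norm_num
  have hX : Nat.card (X 2 2 r) = Nat.card (Bm r) * 4 ^ r := by
    rw [← hQ]
    exact Nat.card_prod _ _
  have hsum : ∑ x : X 2 2 r, nsolP δ κ lam x = ∑ B, m B := Fintype.sum_prod_type _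
  have hfirst := first hr δ hδ κ lam
  have hsec := hM r δ κ lam
  change ∑ B : Bm r, (m B) ^ 2 ≤ _ at hsec
  rw [hX, hsum] at hfirst
  set β := Nat.card (Bm r) with hβdef
  have hfirst' : (6 : ℝ) * (β * (4 : ℝ) ^ r) * 4 ^ r ≤ (∑ B, (m B : ℝ)) * 4 ^ r +
      β * 4 ^ r * (3 * 4 ^ r + 2 ^ 16 * 3 ^ r + 8) := by
    exact_mod_cast hfirst
  have hsec' : ∑ B : Bm r, (m B : ℝ) ^ 2 ≤ (β : ℝ) * (9 * 16 ^ r + 2 ^ 256 * 15 ^ r) := by
    exact_mod_cast hsec
  set S1 := ∑ B, (m B : ℝ) with hS1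
  have hq : (0 : ℝ) < 4 ^ r := by positivity
  have hfirst2 : (6 : ℝ) * (β * (4 : ℝ) ^ r) ≤ S1 + β * (3 * 4 ^ r + 2 ^ 16 * 3 ^ r + 8) := by
    refine le_of_mul_le_mul_right ?_ hq
    calc _ ≤ _ := hfirst'
      _ = _ := by ring
  let T : Finset (Bm r) := Finset.univ.filter fun B => (3 + ε) * (4 : ℝ) ^ r ≤ ((m B : ℕ) : ℝ)
  have hT : {B : Bm r | (3 + ε) * (4 : ℝ) ^ r ≤ ((m B : ℕ) : ℝ)}.ncard = T.card := by
    rw [← Set.ncard_coe_finset]
    congr 1
    ext B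
    simp [T]
  rw [hT]
  have h1 : (T.card : ℝ) * (ε * 4 ^ r) ^ 2 ≤ ∑ B : Bm r, ((m B : ℝ) - 3 * 4 ^ r) ^ 2 := by
    calc (T.card : ℝ) * (ε * 4 ^ r) ^ 2 = ∑ _B ∈ T, (ε * 4 ^ r) ^ 2 := by
          rw [Finset.sum_const, nsmul_eq_mul]
      _ ≤ ∑ B ∈ T, ((m B : ℝ) - 3 * 4 ^ r) ^ 2 := by
          refine Finset.sum_le_sum fun B hB => ?_
          have h2 := (Finset.mem_filter.mp hB).2
          have h3 : 0 ≤ ε * 4 ^ r := by positivity
          refine pow_le_pow_left₀ h3 ?_ 2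
          linarith
      _ ≤ _ := Finset.sum_le_univ_sum_of_nonneg fun B => sq_nonneg _
  have hcard : ∑ _B : Bm r, (1 : ℝ) = β := by
    rw [Finset.sum_const, Finset.card_univ, nsmul_eq_mul, mul_one, hβdef,
      Nat.card_eq_fintype_card]
  have h2 : ∑ B : Bm r, ((m B : ℝ) - 3 * 4 ^ r) ^ 2 =
      ∑ B : Bm r, (m B : ℝ) ^ 2 - 6 * 4 ^ r * S1 + 9 * (4 ^ r) ^ 2 * β := by
    rw [← hcard, hS1, Finset.mul_sum, Finset.mul_sum, ← Finset.sum_sub_distrib,
      ← Finset.sum_add_distrib]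
    refine Finset.sum_congr rfl fun B _ => ?_
    ring
  have h16 : (16 : ℝ) ^ r = (4 ^ r) ^ 2 := by
    rw [← pow_mul, mul_comm, pow_mul]
    norm_num
  have h15 : (15 : ℝ) ^ r = ((15 : ℝ) / 16) ^ r * (4 ^ r) ^ 2 := by
    rw [← h16, ← mul_pow]
    norm_num
  have h3' : (3 : ℝ) ^ r = ((3 : ℝ) / 4) ^ r * 4 ^ r := by
    rw [← mul_pow]
    norm_num
  have h1' : (1 : ℝ) = ((1 : ℝ) / 4) ^ r * 4 ^ r := by
    rw [← mul_pow]
    norm_num
  have hβ0 : (0 : ℝ) ≤ β := Nat.cast_nonneg _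
  have h4 : (T.card : ℝ) * (ε * 4 ^ r) ^ 2 ≤
      β * (2 ^ 256 * 15 ^ r + 6 * 4 ^ r * (2 ^ 16 * 3 ^ r + 8 * 1)) := by
    have h5 := mul_le_mul_of_nonneg_left hfirst2 (by positivity : (0 : ℝ) ≤ 6 * 4 ^ r)
    rw [h16] at hsec'
    calc _ ≤ _ := h1
      _ = _ := h2
      _ ≤ (β : ℝ) * (9 * (4 ^ r) ^ 2 + 2 ^ 256 * 15 ^ r) - 6 * 4 ^ r * S1 +
          9 * (4 ^ r) ^ 2 * β := by linarith
      _ ≤ _ := by linarith
  rw [h15, h3', h1'] at h4
  refine le_of_mul_le_mul_right ?_ (by positivity : (0 : ℝ) < (4 ^ r) ^ 2)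
  calc _ = (T.card : ℝ) * (ε * 4 ^ r) ^ 2 := by ring
    _ ≤ _ := h4
    _ = _ := by ring

/-- CON from the second moment -/
theorem t_CON : S_MOM2 → S_CON := by
  classical
  intro hM ε hε
  have ht1 : Tendsto (fun r : ℕ => (2 : ℝ) ^ 256 * ((15 : ℝ) / 16) ^ r +
      6 * 2 ^ 16 * ((3 : ℝ) / 4) ^ r + 48 * ((1 : ℝ) / 4) ^ r) atTop (𝓝 0) := by
    have h1 := (tendsto_pow_atTop_nhds_zero_of_lt_one (by norm_num : (0 : ℝ) ≤ 15 / 16)
      (by norm_num)).const_mul ((2 : ℝ) ^ 256)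
    have h2 := (tendsto_pow_atTop_nhds_zero_of_lt_one (by norm_num : (0 : ℝ) ≤ 3 / 4)
      (by norm_num)).const_mul ((6 : ℝ) * 2 ^ 16)
    have h3 := (tendsto_pow_atTop_nhds_zero_of_lt_one (by norm_num : (0 : ℝ) ≤ 1 / 4)
      (by norm_num)).const_mul (48 : ℝ)
    have h4 := (h1.add h2).add h3
    rw [mul_zero, mul_zero, mul_zero, add_zero, add_zero] at h4
    exact h4
  have ht2 : Tendsto (fun r : ℕ => ((1 : ℝ) / 4) ^ r) atTop (𝓝 0) :=
    tendsto_pow_atTop_nhds_zero_of_lt_one (by norm_num) (by norm_num)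
  obtain ⟨r1, hr1⟩ := eventually_atTop.mp
    (ht1.eventually (gt_mem_nhds (by positivity : (0 : ℝ) < ε ^ 3 / 4)))
  obtain ⟨r2, hr2⟩ := eventually_atTop.mp (ht2.eventually (gt_mem_nhds hε))
  refine ⟨max r1 r2 + 1, fun r hr δ hδ => ?_⟩
  have hg1 := hr1 r (le_trans (le_max_left r1 r2) (by omega))
  have hg2 := hr2 r (le_trans (le_max_right r1 r2) (by omega))
  have hrpos : 1 ≤ r := by omega
  let Bd : ZMod 2 → ZMod 2 → Set (Bm r) := fun κ lam => {B : Bm r | (3 + ε) * (4 : ℝ) ^ r ≤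
      ((∑ p : Fin r → V 2 2, nsolP δ κ lam (B, p) : ℕ) : ℝ)}
  have hβ0 : (0 : ℝ) ≤ (Nat.card (Bm r) : ℝ) := Nat.cast_nonneg _
  have hBd : ∀ κ lam, ((Bd κ lam).ncard : ℝ) ≤ ε / 4 * (Nat.card (Bm r) : ℝ) := by
    intro κ lam
    have h1 := cheb hM hrpos δ hδ κ lam ε hε
    refine le_of_mul_le_mul_right ?_ (by positivity : (0 : ℝ) < ε ^ 2)
    calc _ ≤ _ := h1
      _ ≤ (Nat.card (Bm r) : ℝ) * (ε ^ 3 / 4) := mul_le_mul_of_nonneg_left hg1.le hβ0
      _ = _ := by ring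
  refine ⟨Bd 0 0 ∪ Bd 0 1 ∪ (Bd 1 0 ∪ Bd 1 1), ?_, ?_⟩
  · have h1 := Set.ncard_union_le (Bd 0 0 ∪ Bd 0 1) (Bd 1 0 ∪ Bd 1 1)
    have h2 := Set.ncard_union_le (Bd 0 0) (Bd 0 1)
    have h3 := Set.ncard_union_le (Bd 1 0) (Bd 1 1)
    have h4 : (Bd 0 0 ∪ Bd 0 1 ∪ (Bd 1 0 ∪ Bd 1 1)).ncard ≤
        (Bd 0 0).ncard + (Bd 0 1).ncard + ((Bd 1 0).ncard + (Bd 1 1).ncard) := by omega
    have h5 : ((Bd 0 0 ∪ Bd 0 1 ∪ (Bd 1 0 ∪ Bd 1 1)).ncard : ℝ) ≤
        (Bd 0 0).ncard + (Bd 0 1).ncard + ((Bd 1 0).ncard + (Bd 1 1).ncard) := by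
      exact_mod_cast h4
    have := hBd 0 0
    have := hBd 0 1
    have := hBd 1 0
    have := hBd 1 1
    linarith
  · intro B hB κ lam
    have hc : ∀ c : ZMod 2, c = 0 ∨ c = 1 := by decide
    have hB' : B ∉ Bd κ lam := by
      intro h
      apply hB
      rcases hc κ with rfl | rfl <;> rcases hc lam with rfl | rfl
      · exact Or.inl (Or.inl h)
      · exact Or.inl (Or.inr h)
      · exact Or.inr (Or.inl h)
      · exact Or.inr (Or.inr h)
    have hm : ((∑ p : Fin r → V 2 2, nsolP δ κ lam (B, p) : ℕ) : ℝ) < (3 + ε) * (4 : ℝ) ^ r :=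
      not_le.mp hB'
    obtain ⟨c1, c2⟩ := cond_counts hrpos δ hδ κ lam B
    have hQ : Nat.card (Fin r → V 2 2) = 4 ^ r := by
      rw [Nat.card_eq_fintype_card, Fintype.card_fun, card_V, Fintype.card_fin]
      norm_num
    rw [hQ] at c1 c2 ⊢
    set m := ∑ p : Fin r → V 2 2, nsolP δ κ lam (B, p)
    have hq : (0 : ℝ) < 4 ^ r := by positivity
    have h1' : (1 : ℝ) = ((1 : ℝ) / 4) ^ r * 4 ^ r := by
      rw [← mul_pow]
      norm_num
    have hone : (1 : ℝ) ≤ ε * 4 ^ r := by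
      calc (1 : ℝ) = ((1 : ℝ) / 4) ^ r * 4 ^ r := h1'
        _ ≤ _ := mul_le_mul_of_nonneg_right hg2.le hq.le
    have c1' : (4 : ℝ) * 4 ^ r ≤ m + 1 +
        6 * ({p : Fin r → V 2 2 | nsolP δ κ lam (B, p) = 1}.ncard : ℝ) := by
      exact_mod_cast c1
    have c2' : (16 : ℝ) * 4 ^ r ≤ 3 * m + 1 +
        12 * ({p : Fin r → V 2 2 | nsolP δ κ lam (B, p) ≤ 2}.ncard : ℝ) := by
      exact_mod_cast c2
    have hq2 : 0 ≤ ε * 4 ^ r := by positivity
    constructor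
    · push_cast
      nlinarith
    · push_cast
      nlinarith

end Pool.Agent.D0H49.OD
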